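import Mathlib

/-! The asymptotic formula for the variance of primes in short intervals, with the variance taken
as the mean over `[1, X]` of the count in the window centred at `x`, fails for windows longer than
`X ^ (1/2 + δ)`: the points `x < H / 2`, whose window sticks out of `[1, ∞)`, already contribute
more than the predicted main term. -/

open MeasureTheory Filter Topology

namespace Pool.Agent.Results.MP_2a816b_nt.EdgeEffect

/-- The weighted number of prime powers in the interval of length `H` centred at `x`. -/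
noncomputable def psi (x H : ℝ) : ℝ :=
  ∑ᶠ n ∈ {n : ℕ | 1 ≤ n ∧ x - H / 2 ≤ n ∧ (n : ℝ) ≤ x + H / 2}, ArithmeticFunction.vonMangoldt n

/-- The left side of the asymptotic formula. -/
noncomputable def lhs (X H : ℝ) : ℝ := (1 / X) * ∫ x in (1 : ℝ)..X, |psi x H - H| ^ 2

/-- The right side of the asymptotic formula. -/
noncomputable def rhs (X H : ℝ) : ℝ :=
  H * (Real.log X - Real.log H - (Real.eulerMascheroniConstant + Real.log (2 * Real.pi)))

lemma psi_eq (x H X : ℝ) (hx : x ≤ X) :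
    psi x H = ∑ n ∈ Finset.Icc 1 ⌊X + H / 2⌋₊,
      (Set.Icc ((n : ℝ) - H / 2) (n + H / 2)).indicator
        (fun _ => ArithmeticFunction.vonMangoldt n) x := by
  classical
  unfold psi
  have hS : {n : ℕ | 1 ≤ n ∧ x - H / 2 ≤ n ∧ (n : ℝ) ≤ x + H / 2} =
      ↑((Finset.Icc 1 ⌊X + H / 2⌋₊).filter
        (fun n : ℕ => x - H / 2 ≤ n ∧ (n : ℝ) ≤ x + H / 2)) := by
    ext n
    simp only [Set.mem_ofPred_eq, Finset.coe_filter, Finset.mem_Icc]
    constructor
    · rintro ⟨h1, h2, h3⟩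
      refine ⟨⟨h1, ?_⟩, h2, h3⟩
      apply Nat.le_floor
      linarith
    · rintro ⟨⟨h1, _⟩, h2, h3⟩
      exact ⟨h1, h2, h3⟩
  rw [hS, finsum_mem_coe_finset, Finset.sum_filter]
  refine Finset.sum_congr rfl fun n _ => ?_
  rw [Set.indicator_apply]
  have : (x - H / 2 ≤ (n : ℝ) ∧ (n : ℝ) ≤ x + H / 2) ↔ x ∈ Set.Icc ((n : ℝ) - H / 2) (n + H / 2) := by
    rw [Set.mem_Icc]
    constructor
    · rintro ⟨h1, h2⟩; constructor <;> linarith
    · rintro ⟨h1, h2⟩; constructor <;> linarith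
  by_cases h : x ∈ Set.Icc ((n : ℝ) - H / 2) (n + H / 2)
  · rw [if_pos h, if_pos (this.mpr h)]
  · rw [if_neg h, if_neg (fun h' => h (this.mp h'))]

lemma psi_nonneg (x H : ℝ) : 0 ≤ psi x H := by
  rw [psi_eq x H x le_rfl]
  exact Finset.sum_nonneg fun n _ => Set.indicator_nonneg
    (fun _ _ => ArithmeticFunction.vonMangoldt_nonneg) _

lemma psi_le_chebyshev (x H : ℝ) : psi x H ≤ Chebyshev.psi (x + H / 2) := by
  rw [psi_eq x H x le_rfl, Chebyshev.psi]
  have : Finset.Icc 1 ⌊x + H / 2⌋₊ = Finset.Ioc 0 ⌊x + H / 2⌋₊ := by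
    ext n; simp [Finset.mem_Icc, Finset.mem_Ioc]; omega
  rw [this]
  refine Finset.sum_le_sum fun n _ => ?_
  rw [Set.indicator_apply]
  split_ifs
  · exact le_rfl
  · exact ArithmeticFunction.vonMangoldt_nonneg

lemma intervalIntegrable (X H : ℝ) (hX : 1 ≤ X) :
    IntervalIntegrable (fun x => |psi x H - H| ^ 2) volume 1 X := by
  rw [intervalIntegrable_iff_integrableOn_Ioc_of_le hX]
  set g : ℝ → ℝ := fun x => ∑ n ∈ Finset.Icc 1 ⌊X + H / 2⌋₊,
      (Set.Icc ((n : ℝ) - H / 2) (n + H / 2)).indicator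
        (fun _ => ArithmeticFunction.vonMangoldt n) x with hg
  have hgm : Measurable g := by
    refine Finset.measurable_sum _ fun n _ => ?_
    exact measurable_const.indicator measurableSet_Icc
  have hbound : ∀ x, |g x| ≤ ∑ n ∈ Finset.Icc 1 ⌊X + H / 2⌋₊, ArithmeticFunction.vonMangoldt n := by
    intro x
    have h0 : 0 ≤ g x := Finset.sum_nonneg fun n _ => Set.indicator_nonneg
      (fun _ _ => ArithmeticFunction.vonMangoldt_nonneg) _
    rw [abs_of_nonneg h0]
    refine Finset.sum_le_sum fun n _ => ?_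
    rw [Set.indicator_apply]
    split_ifs
    · exact le_rfl
    · exact ArithmeticFunction.vonMangoldt_nonneg
  set M := ∑ n ∈ Finset.Icc 1 ⌊X + H / 2⌋₊, ArithmeticFunction.vonMangoldt n with hM
  have h1 : IntegrableOn (fun x => |g x - H| ^ 2) (Set.Ioc 1 X) volume := by
    refine Measure.integrableOn_of_bounded (M := (M + |H|) ^ 2) ?_ ?_ ?_
    · simp
    · exact ((hgm.sub_const H).abs.pow_const 2).aestronglyMeasurable
    · refine Eventually.of_forall fun x => ?_
      rw [Real.norm_eq_abs, abs_pow, abs_abs]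
      refine pow_le_pow_left₀ (abs_nonneg _) ?_ 2
      calc |g x - H| ≤ |g x| + |H| := abs_sub _ _
        _ ≤ M + |H| := by linarith [hbound x]
  refine h1.congr_fun (fun x hx => ?_) measurableSet_Ioc
  simp only
  rw [psi_eq x H X hx.2]

lemma exists_H0 : ∃ H₀ : ℝ, 16 ≤ H₀ ∧ ∀ H : ℝ, H₀ ≤ H →
    Chebyshev.psi (5 / 8 * H) ≤ 9 / 10 * H := by
  have hlim : Tendsto (fun x : ℝ => 2 * √x * Real.log x / x) atTop (𝓝 0) := by
    have h1 : Tendsto (fun x : ℝ => Real.log x / x ^ (1 / 2 : ℝ)) atTop (𝓝 0) :=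
      (isLittleO_log_rpow_atTop (by norm_num)).tendsto_div_nhds_zero
    have h2 : Tendsto (fun x : ℝ => 2 * (Real.log x / x ^ (1 / 2 : ℝ))) atTop (𝓝 (2 * 0)) :=
      h1.const_mul 2
    rw [mul_zero] at h2
    refine h2.congr' ?_
    filter_upwards [eventually_gt_atTop 0] with x hx
    rw [← Real.sqrt_eq_rpow]
    have hs : √x * √x = x := Real.mul_self_sqrt hx.le
    have hs0 : 0 < √x := Real.sqrt_pos.mpr hx
    field_simp
    rw [sq, hs]
  have hev : ∀ᶠ x : ℝ in atTop, 2 * √x * Real.log x / x < 1 / 25 :=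
    hlim.eventually (gt_mem_nhds (by norm_num))
  obtain ⟨x₀, hx₀⟩ := eventually_atTop.mp hev
  refine ⟨max 16 (8 / 5 * x₀), le_max_left _ _, fun H hH => ?_⟩
  have hH16 : 16 ≤ H := (le_max_left _ _).trans hH
  have hH2 : 8 / 5 * x₀ ≤ H := (le_max_right _ _).trans hH
  have hx : x₀ ≤ 5 / 8 * H := by linarith
  have h1 := hx₀ (5 / 8 * H) hx
  have hpos : 0 < 5 / 8 * H := by linarith
  rw [div_lt_iff₀ hpos] at h1
  have h2 := Chebyshev.psi_le (x := 5 / 8 * H) (by linarith)
  have h3 : Real.log 4 < 1.3864 := by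
    have : Real.log 4 = 2 * Real.log 2 := by
      rw [show (4 : ℝ) = 2 ^ 2 by norm_num, Real.log_pow]; norm_num
    rw [this]
    have := Real.log_two_lt_d9
    linarith
  nlinarith

/-- The edge effect: the points `x ≤ H / 8` alone contribute at least `c H ^ 3 / X`. -/
lemma lhs_lower : ∃ H₀ : ℝ, 16 ≤ H₀ ∧ ∀ X H : ℝ, H₀ ≤ H → H ≤ X → H ^ 3 / (1600 * X) ≤ lhs X H := by
  obtain ⟨H₀, h16, h⟩ := exists_H0
  refine ⟨H₀, h16, fun X H hH hHX => ?_⟩
  have hH16 : 16 ≤ H := h16.trans hH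
  have hX : 0 < X := by linarith
  have hI := intervalIntegrable X H (by linarith)
  have h18 : (1 : ℝ) ≤ H / 8 := by linarith
  have hsub : Set.uIcc 1 (H / 8) ⊆ Set.uIcc 1 X := by
    rw [Set.uIcc_of_le h18, Set.uIcc_of_le (by linarith)]
    exact Set.Icc_subset_Icc le_rfl (by linarith)
  have hI1 : IntervalIntegrable (fun x => |psi x H - H| ^ 2) volume 1 (H / 8) := hI.mono_set hsub
  have h1 : ∫ x in (1 : ℝ)..(H / 8), |psi x H - H| ^ 2 ≤ ∫ x in (1 : ℝ)..X, |psi x H - H| ^ 2 := by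
    refine intervalIntegral.integral_mono_interval le_rfl h18 (by linarith) ?_ hI
    exact Eventually.of_forall fun x => by positivity
  have h2 : ∫ x in (1 : ℝ)..(H / 8), (H / 10) ^ 2 ≤ ∫ x in (1 : ℝ)..(H / 8), |psi x H - H| ^ 2 := by
    refine intervalIntegral.integral_mono_on h18 (by simp) hI1 fun x hx => ?_
    have h3 : psi x H ≤ 9 / 10 * H := by
      refine (psi_le_chebyshev x H).trans ?_
      refine (Chebyshev.psi_mono ?_).trans (h H hH)
      linarith [hx.2]
    rw [abs_sub_comm]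
    have h4 : H / 10 ≤ |H - psi x H| := by
      refine le_trans ?_ (le_abs_self _)
      linarith
    exact pow_le_pow_left₀ (by linarith) h4 2
  rw [intervalIntegral.integral_const, smul_eq_mul] at h2
  unfold lhs
  have h5 : H ^ 3 / 1600 ≤ ∫ x in (1 : ℝ)..X, |psi x H - H| ^ 2 := by
    refine le_trans ?_ (h2.trans h1)
    nlinarith [sq_nonneg H, mul_nonneg (sq_nonneg H) (by linarith : 0 ≤ H - 16)]
  calc H ^ 3 / (1600 * X) = 1 / X * (H ^ 3 / 1600) := by field_simp
    _ ≤ 1 / X * ∫ x in (1 : ℝ)..X, |psi x H - H| ^ 2 :=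
      mul_le_mul_of_nonneg_left h5 (by positivity)

lemma tendsto_ratio (δ : ℝ) (hδ : 0 < δ) (H : ℝ → ℝ)
    (hH : ∀ᶠ X in atTop, X ^ (1 / 2 + δ) ≤ H X ∧ H X ≤ X ^ (1 - δ)) :
    Tendsto (fun X => lhs X (H X) / rhs X (H X)) atTop atTop := by
  obtain ⟨H₀, h16, hlow⟩ := lhs_lower
  set C : ℝ := Real.eulerMascheroniConstant + Real.log (2 * Real.pi) with hC
  have hC0 : 0 ≤ C := by
    have h1 := Real.one_half_lt_eulerMascheroniConstant
    have h2 : 0 ≤ Real.log (2 * Real.pi) := Real.log_nonneg (by nlinarith [Real.pi_gt_three])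
    linarith
  have hmain : Tendsto (fun X : ℝ => X ^ (2 * δ) / Real.log X / 1600) atTop atTop := by
    refine Tendsto.atTop_div_const (by norm_num) ?_
    have h1 : Tendsto (fun X : ℝ => Real.log X / X ^ (2 * δ)) atTop (𝓝 0) :=
      (isLittleO_log_rpow_atTop (by linarith)).tendsto_div_nhds_zero
    have h2 : Tendsto (fun X : ℝ => Real.log X / X ^ (2 * δ)) atTop (𝓝[>] 0) := by
      refine tendsto_nhdsWithin_iff.mpr ⟨h1, ?_⟩
      filter_upwards [eventually_gt_atTop 1] with X hX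
      exact div_pos (Real.log_pos hX) (Real.rpow_pos_of_pos (by linarith) _)
    have h3 := h2.inv_tendsto_nhdsGT_zero
    refine h3.congr fun X => ?_
    simp [inv_div]
  refine tendsto_atTop_mono' _ ?_ hmain
  have hlog : ∀ᶠ X : ℝ in atTop, C / δ < Real.log X :=
    Real.tendsto_log_atTop.eventually_gt_atTop _
  have hbig : ∀ᶠ X : ℝ in atTop, H₀ ≤ X ^ (1 / 2 + δ) :=
    (tendsto_rpow_atTop (by linarith : 0 < 1 / 2 + δ)).eventually_ge_atTop _
  filter_upwards [hH, hlog, hbig, eventually_gt_atTop 1] with X hHX hlogX hbigX hX1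
  obtain ⟨h1, h2⟩ := hHX
  have hX0 : 0 < X := by linarith
  have hHpos : 0 < H X := by linarith
  have hlX : 0 < Real.log X := Real.log_pos hX1
  have hHleX : H X ≤ X := by
    refine h2.trans ?_
    calc X ^ (1 - δ) ≤ X ^ (1 : ℝ) := Real.rpow_le_rpow_of_exponent_le hX1.le (by linarith)
      _ = X := Real.rpow_one X
  have hL := hlow X (H X) (hbigX.trans h1) hHleX
  have hlogH : Real.log (H X) ≤ (1 - δ) * Real.log X := by
    have := Real.log_le_log hHpos h2
    rwa [Real.log_rpow hX0] at this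
  have hlogH0 : 0 ≤ Real.log (H X) := Real.log_nonneg (by linarith)
  have hden_pos : 0 < Real.log X - Real.log (H X) - C := by
    have h3 : C < δ * Real.log X := by
      rw [div_lt_iff₀ hδ] at hlogX
      linarith
    linarith
  have hrhs_pos : 0 < rhs X (H X) := by
    unfold rhs
    exact mul_pos hHpos hden_pos
  have hrhs_le : rhs X (H X) ≤ H X * Real.log X := by
    unfold rhs
    refine mul_le_mul_of_nonneg_left ?_ hHpos.le
    linarith
  have hsq : X ^ (1 + 2 * δ) ≤ (H X) ^ 2 := by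
    have h4 : (X ^ (1 / 2 + δ)) ^ 2 ≤ (H X) ^ 2 :=
      pow_le_pow_left₀ (Real.rpow_nonneg hX0.le _) h1 2
    refine le_trans (le_of_eq ?_) h4
    rw [← Real.rpow_natCast, ← Real.rpow_mul hX0.le]
    congr 1
    push_cast
    ring
  have hsplit : X ^ (1 + 2 * δ) = X * X ^ (2 * δ) := by
    rw [Real.rpow_add hX0, Real.rpow_one]
  rw [le_div_iff₀ hrhs_pos]
  calc X ^ (2 * δ) / Real.log X / 1600 * rhs X (H X)
      ≤ X ^ (2 * δ) / Real.log X / 1600 * (H X * Real.log X) := by
        refine mul_le_mul_of_nonneg_left hrhs_le ?_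
        positivity
    _ = X ^ (2 * δ) * H X / 1600 := by field_simp
    _ ≤ H X ^ 3 / (1600 * X) := by
        rw [div_le_div_iff₀ (by norm_num) (by positivity)]
        have h5 : X ^ (2 * δ) * X ≤ (H X) ^ 2 := by
          rw [mul_comm, ← hsplit]; exact hsq
        have h6 := mul_le_mul_of_nonneg_right h5 hHpos.le
        nlinarith
    _ ≤ lhs X (H X) := hL

/-- The asymptotic formula fails, and the ratio of the two sides even tends to infinity, for every
window length between `X ^ (1/2 + δ)` and `X ^ (1 - δ)`. -/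
theorem result :
    (∃ ε : ℝ, 0 < ε ∧ ∃ H : ℝ → ℝ, (∀ X : ℝ, 1 < X → X ^ ε < H X ∧ H X < X ^ (1 - ε)) ∧
      ¬ Tendsto (fun X => lhs X (H X) / rhs X (H X)) atTop (𝓝 1)) ∧
    ∀ δ : ℝ, 0 < δ → ∀ H : ℝ → ℝ,
      (∀ᶠ X in atTop, X ^ (1 / 2 + δ) ≤ H X ∧ H X ≤ X ^ (1 - δ)) →
      Tendsto (fun X => lhs X (H X) / rhs X (H X)) atTop atTop := by
  refine ⟨⟨1 / 8, by norm_num, fun X => X ^ (3 / 4 : ℝ), fun X hX => ⟨?_, ?_⟩, ?_⟩, tendsto_ratio⟩
  · exact Real.rpow_lt_rpow_of_exponent_lt hX (by norm_num)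
  · exact Real.rpow_lt_rpow_of_exponent_lt hX (by norm_num)
  · intro h
    refine not_tendsto_nhds_of_tendsto_atTop (tendsto_ratio (1 / 4) (by norm_num) _ ?_) 1 h
    exact Eventually.of_forall fun X => ⟨by norm_num, by norm_num⟩

end Pool.Agent.Results.MP_2a816b_nt.EdgeEffect
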