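import Pool.Agent.R303.SW.Cen

/-!
# The variance of primes in short intervals on every window, and at isolated points

`ψ(x;H)` is the sum of `Λ(n)` over `x - H/2 ≤ n ≤ x + H/2`.

1. If `ζ` has a zero with real part `> θ ≥ 1/2`, then for all `κ ≥ 0` with `4θ(1-θ)(κ+1) ≤ 1`, all
   `c > 0`, all `0 < ε < 1` and all large `X` one has, for all `0 < H ≤ X^(1-ε)` simultaneously,
   `∫_X^{X + cX/(log X)^κ} |ψ(x;H) - H| dx ≥ H X^θ`;
2. in particular `(1/X) ∫_{X/2}^X |ψ(x;H) - H|² dx ≥ H² X^(2θ-2)` for all large `X` and all these `H`;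
3. the Riemann hypothesis holds if and only if for every `0 < ε < 1` there are arbitrarily large `X` for
   which `(1/X) ∫_{X/2}^X |ψ(x;H) - H|² dx ≤ H X^(2ε)` holds for at least one `H` with
   `X^(1-ε) ≤ H ≤ X^(1-ε/2)`.
-/

set_option autoImplicit false
set_option maxHeartbeats 4000000

open Filter Topology Set MeasureTheory
open Pool.Agent.W190 (SF SF_psi rh_free)
open Pool.Agent.R303.SW

namespace Pool.Agent.Results.MP_2a816b_nt.IsolatedPoints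

/-- The weighted number of prime powers in the interval of length `H` centred at `x`. -/
noncomputable def psi (x H : ℝ) : ℝ :=
  ∑ᶠ n ∈ {n : ℕ | 1 ≤ n ∧ x - H / 2 ≤ n ∧ (n : ℝ) ≤ x + H / 2}, ArithmeticFunction.vonMangoldt n

/-- the von Mangoldt function -/
noncomputable def a0 (n : ℕ) : ℝ := ArithmeticFunction.vonMangoldt n

lemma psi_ae {H : ℝ} (hH : 0 < H) : ∀ᵐ x : ℝ, H / 2 ≤ x → psi x H = DF a0 H x := by
  filter_upwards [ae_not_nat (-H)] with x hx hx2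
  have hn : ∀ n : ℕ, x - H / 2 ≠ n := fun n h => hx n (by rw [← h]; ring)
  unfold psi DF SF
  have e1 : Finset.Icc 1 ⌊x + H / 2⌋₊ = Finset.Icc 1 ⌊x - H / 2⌋₊ ∪
      Finset.Ioc ⌊x - H / 2⌋₊ ⌊x + H / 2⌋₊ := by
    ext n
    simp only [Finset.mem_union, Finset.mem_Icc, Finset.mem_Ioc]
    have : ⌊x - H / 2⌋₊ ≤ ⌊x + H / 2⌋₊ := Nat.floor_mono (by linarith)
    omega
  rw [e1, Finset.sum_union (Finset.disjoint_left.2 fun n h1 h2 => by
    rw [Finset.mem_Icc] at h1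
    rw [Finset.mem_Ioc] at h2
    omega), add_sub_cancel_left]
  have e2 : {n : ℕ | 1 ≤ n ∧ x - H / 2 ≤ n ∧ (n : ℝ) ≤ x + H / 2} =
      ((Finset.Ioc ⌊x - H / 2⌋₊ ⌊x + H / 2⌋₊ : Finset ℕ) : Set ℕ) := by
    ext n
    rw [Finset.mem_coe, Finset.mem_Ioc, Nat.floor_lt (by linarith), Nat.le_floor_iff (by linarith)]
    simp only [mem_ofPred_eq]
    constructor
    · rintro ⟨_, h1, h2⟩
      exact ⟨lt_of_le_of_ne h1 (hn n), h2⟩
    · rintro ⟨h1, h2⟩
      refine ⟨?_, h1.le, h2⟩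
      have : (0:ℝ) < n := by linarith
      exact_mod_cast this
  rw [e2, finsum_mem_coe_finset]
  rfl

lemma int_congr {H X Y : ℝ} (hH : 0 < H) (hXY : X ≤ Y) (hX : H / 2 ≤ X) (F : ℝ → ℝ) :
    ∫ x in X..Y, F (psi x H) = ∫ x in X..Y, F (DF a0 H x) := by
  refine intervalIntegral.integral_congr_ae ?_
  filter_upwards [psi_ae hH] with x hx hx2
  rw [uIoc_of_le hXY] at hx2
  rw [hx (by linarith [hx2.1])]

theorem part1 (θ κ c ε : ℝ) (hθ : 1 / 2 ≤ θ) (hκ : 0 ≤ κ) (hcond : 4 * θ * (1 - θ) * (κ + 1) ≤ 1)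
    (hc : 0 < c) (hε : 0 < ε) (hε1 : ε < 1) (hz : ∃ s : ℂ, riemannZeta s = 0 ∧ θ < s.re) :
    ∀ᶠ X : ℝ in atTop, ∀ H : ℝ, 0 < H → H ≤ X ^ (1 - ε) →
      H * X ^ θ ≤ ∫ x in X..(X + c * X / Real.log X ^ κ), |psi x H - H| := by
  obtain ⟨s, hs, hsθ⟩ := hz
  set θ' := (θ + s.re) / 2 with hθ'
  have hθ1 : θ < θ' := by rw [hθ']; linarith
  have hθ2 : θ' < s.re := by rw [hθ']; linarith
  have hcond' : 4 * θ' * (1 - θ') * (κ + 1) ≤ 1 := by
    refine le_trans ?_ hcond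
    refine mul_le_mul_of_nonneg_right ?_ (by linarith)
    nlinarith
  have h1 := psi_short (κ := κ) (c := c / 2 ^ κ) (e0 := ε / 2) hκ (by positivity) (θ := θ')
    (by linarith) hcond' ⟨s, hs, hθ2⟩ (by linarith)
  have h2 := recentre (f := fun y H => |Chebyshev.psi (y + H) - Chebyshev.psi y - H|)
    (fun y H => abs_nonneg _)
    (fun H x y => by
      have h3 := (DF_II a0 H H (x + H / 2) (y + H / 2)).comp_add_right (H / 2)
      have e : (fun x => DF a0 H (x + H / 2) - H) =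
          fun y => Chebyshev.psi (y + H) - Chebyshev.psi y - H := by
        funext z
        unfold DF
        rw [add_sub_cancel_right, add_assoc, add_halves, ← SF_psi, ← SF_psi]
        rfl
      rw [e, add_sub_cancel_right, add_sub_cancel_right] at h3
      exact h3.abs) hθ1 (by linarith) hκ hc hε hε1 h1
  filter_upwards [h2, eventually_ge_atTop (1:ℝ), Real.tendsto_log_atTop.eventually_gt_atTop 0] with X g1 g2 g3
    H hH hH1
  have hHX : H ≤ X := by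
    refine hH1.trans ?_
    conv_rhs => rw [← Real.rpow_one X]
    exact Real.rpow_le_rpow_of_exponent_le g2 (by linarith)
  have hle : X ≤ X + c * X / Real.log X ^ κ := by
    have : 0 ≤ c * X / Real.log X ^ κ := by positivity
    linarith
  refine (g1 H hH hH1).trans (le_of_eq ?_)
  rw [int_congr hH hle (by linarith) (fun t => |t - H|)]
  refine intervalIntegral.integral_congr fun x _ => ?_
  have e2 : x - H / 2 + H = x + H / 2 := by ring
  simp only [DF, ← SF_psi, e2]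
  rfl

theorem cs {X H : ℝ} (hX : 0 < X) (hH : 0 < H) (hHX : H ≤ X / 2) :
    ((1 / (X / 2)) * ∫ x in (X / 2)..X, |psi x H - H|) ^ 2 ≤
      (1 / (X / 2)) * ∫ x in (X / 2)..X, |psi x H - H| ^ 2 := by
  rw [int_congr hH (by linarith) (by linarith) (fun t => |t - H|),
    int_congr hH (by linarith) (by linarith) (fun t => |t - H| ^ 2)]
  have h1 := (DF_II a0 H H (X / 2) X).abs
  have h2 := DF_II2 a0 H H (X / 2) X
  have := cs_int (g := fun x => DF a0 H x - H) (X := X / 2) (Y := X) (by linarith) h1 h2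
  rw [show X - X / 2 = X / 2 by ring] at this
  simpa only [sq_abs] using this

theorem part2 (θ ε : ℝ) (hθ : 1 / 2 ≤ θ) (hε : 0 < ε) (hε1 : ε < 1)
    (hz : ∃ s : ℂ, riemannZeta s = 0 ∧ θ < s.re) :
    ∀ᶠ X : ℝ in atTop, ∀ H : ℝ, 0 < H → H ≤ X ^ (1 - ε) →
      H ^ 2 * X ^ (2 * θ - 2) ≤ (1 / X) * ∫ x in (X / 2)..X, |psi x H - H| ^ 2 := by
  obtain ⟨s, hs, hsθ⟩ := hz
  set θ' := (θ + s.re) / 2 with hθ'
  have hθ1 : θ < θ' := by rw [hθ']; linarith
  have hθ2 : θ' < s.re := by rw [hθ']; linarith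
  have h1 := part1 θ' 0 1 (ε / 2) (by linarith) le_rfl (by nlinarith [sq_nonneg (2 * θ' - 1)]) one_pos
    (by linarith) (by linarith) ⟨s, hs, hθ2⟩
  have h1' : ∀ᶠ X : ℝ in atTop, ∀ H : ℝ, 0 < H → H ≤ (X / 2) ^ (1 - ε / 2) →
      H * (X / 2) ^ θ' ≤ ∫ x in (X / 2)..(X / 2 + 1 * (X / 2) / Real.log (X / 2) ^ (0:ℝ)), |psi x H - H| :=
    (tendsto_id.atTop_div_const (by norm_num : (0:ℝ) < 2)).eventually h1
  have t1 : ∀ᶠ X : ℝ in atTop, (2:ℝ) ^ (1 - ε / 2) ≤ X ^ (ε / 2) :=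
    (tendsto_rpow_atTop (by linarith)).eventually_ge_atTop _
  have t2 : ∀ᶠ X : ℝ in atTop, 2 * (2:ℝ) ^ θ' ≤ X ^ (θ' - θ) :=
    (tendsto_rpow_atTop (by linarith)).eventually_ge_atTop _
  have t3 : ∀ᶠ X : ℝ in atTop, (2:ℝ) ≤ X ^ ε :=
    (tendsto_rpow_atTop (by linarith)).eventually_ge_atTop _
  filter_upwards [h1', eventually_ge_atTop (1:ℝ), t1, t2, t3] with X g1 g2 g3 g4 g5 H hH hH1
  have hX : 0 < X := by linarith
  have hHX : H ≤ X / 2 := by
    refine hH1.trans ?_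
    rw [le_div_iff₀ (by norm_num)]
    calc X ^ (1 - ε) * 2 ≤ X ^ (1 - ε) * X ^ ε := by gcongr
      _ = X := by rw [← Real.rpow_add hX, sub_add_cancel, Real.rpow_one]
  have hH2 : H ≤ (X / 2) ^ (1 - ε / 2) := by
    refine hH1.trans ?_
    rw [Real.div_rpow hX.le (by norm_num), le_div_iff₀ (by positivity)]
    calc X ^ (1 - ε) * 2 ^ (1 - ε / 2) ≤ X ^ (1 - ε) * X ^ (ε / 2) := by gcongr
      _ = X ^ (1 - ε / 2) := by rw [← Real.rpow_add hX]; congr 1; ring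
  have h3 := g1 H hH hH2
  rw [Real.rpow_zero, one_mul, div_one, add_halves] at h3
  have h4 := cs hX hH hHX
  have h5 : H * X ^ (θ - 1) * 2 ≤ (1 / (X / 2)) * ∫ x in (X / 2)..X, |psi x H - H| := by
    have h6 : 2 * X ^ θ ≤ (X / 2) ^ θ' := by
      rw [Real.div_rpow hX.le (by norm_num), le_div_iff₀ (by positivity)]
      calc 2 * X ^ θ * 2 ^ θ' = X ^ θ * (2 * 2 ^ θ') := by ring
        _ ≤ X ^ θ * X ^ (θ' - θ) := by gcongr
        _ = X ^ θ' := by rw [← Real.rpow_add hX]; congr 1; ring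
    calc H * X ^ (θ - 1) * 2 ≤ (1 / (X / 2)) * (H * (2 * X ^ θ)) := by
          rw [Real.rpow_sub hX, Real.rpow_one]
          have : (0:ℝ) ≤ H * X ^ θ / X := by positivity
          have e : 1 / (X / 2) * (H * (2 * X ^ θ)) = 2 * (H * X ^ θ / X) * 2 := by field_simp
          rw [e, ← mul_div_assoc]
          linarith
      _ ≤ (1 / (X / 2)) * (H * (X / 2) ^ θ') := by gcongr
      _ ≤ _ := by gcongr
  have h7 : (H * X ^ (θ - 1) * 2) ^ 2 ≤ (1 / (X / 2)) * ∫ x in (X / 2)..X, |psi x H - H| ^ 2 :=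
    (pow_le_pow_left₀ (by positivity) h5 2).trans h4
  have h8 : (1 / (X / 2)) * (∫ x in (X / 2)..X, |psi x H - H| ^ 2) =
      2 * ((1 / X) * ∫ x in (X / 2)..X, |psi x H - H| ^ 2) := by
    rw [← mul_assoc]
    congr 1
    field_simp
  rw [h8] at h7
  have h9 : X ^ (2 * θ - 2) = (X ^ (θ - 1)) ^ 2 := by
    rw [← Real.rpow_natCast, ← Real.rpow_mul hX.le]
    congr 1
    push_cast
    ring
  have h10 : 0 ≤ (H * X ^ (θ - 1)) ^ 2 := sq_nonneg _
  rw [h9, ← mul_pow]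
  rw [mul_pow] at h7
  linarith

theorem part3a (hrh : RiemannHypothesis) (ε : ℝ) (hε : 0 < ε) (hε1 : ε < 1) :
    ∃ᶠ X : ℝ in atTop, ∃ H : ℝ, X ^ (1 - ε) ≤ H ∧ H ≤ X ^ (1 - ε / 2) ∧
      (1 / X) * ∫ x in (X / 2)..X, |psi x H - H| ^ 2 ≤ H * X ^ (2 * ε) := by
  obtain ⟨C, hC0, hC⟩ := Pool.Agent.W190.psi_of_free (1 / 2) le_rfl (rh_free.1 hrh) (1 / 2 + ε / 4)
    (by linarith) (by linarith)
  have t1 : ∀ᶠ X : ℝ in atTop, (C * 2 ^ (1 / 2 + ε / 4) + C * 2 ^ (1 / 2 + ε / 4)) ^ 2 ≤ X ^ (ε / 2) :=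
    (tendsto_rpow_atTop (by linarith)).eventually_ge_atTop _
  have t3 : ∀ᶠ X : ℝ in atTop, (2:ℝ) ≤ X ^ ε :=
    (tendsto_rpow_atTop (by linarith)).eventually_ge_atTop _
  refine Eventually.frequently ?_
  filter_upwards [t1, t3, eventually_ge_atTop (4:ℝ)] with X g1 g3 g2
  have hX : 0 < X := by linarith
  refine ⟨X ^ (1 - ε), le_rfl, Real.rpow_le_rpow_of_exponent_le (by linarith) (by linarith), ?_⟩
  set H := X ^ (1 - ε) with hH
  have hH0 : 0 < H := by positivity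
  have hHX : H ≤ X / 2 := by
    rw [le_div_iff₀ (by norm_num)]
    calc X ^ (1 - ε) * 2 ≤ X ^ (1 - ε) * X ^ ε := by gcongr
      _ = X := by rw [← Real.rpow_add hX, sub_add_cancel, Real.rpow_one]
  rw [int_congr hH0 (by linarith) (by linarith) (fun t => |t - H| ^ 2)]
  set K := C * (2 * X) ^ (1 / 2 + ε / 4) with hK
  have hb : ∀ z : ℝ, 1 ≤ z → z ≤ 2 * X → |Chebyshev.psi z - z| ≤ K := by
    intro z h1 h2
    refine (hC z h1).trans ?_
    rw [hK]
    exact mul_le_mul_of_nonneg_left (Real.rpow_le_rpow (by linarith) h2 (by linarith)) hC0.le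
  have h1 : ∫ x in (X / 2)..X, |DF a0 H x - H| ^ 2 ≤ ∫ x in (X / 2)..X, (K + K) ^ 2 := by
    have h2 := DF_II2 a0 H H (X / 2) X
    have e : (fun x => |DF a0 H x - H| ^ 2) = fun x => (DF a0 H x - H) ^ 2 := by
      funext x
      rw [sq_abs]
    refine intervalIntegral.integral_mono_on (by linarith) (by rw [e]; exact h2)
      intervalIntegrable_const fun x hx => ?_
    refine pow_le_pow_left₀ (abs_nonneg _) ?_ 2
    have e3 : DF a0 H x - H = (Chebyshev.psi (x + H / 2) - (x + H / 2)) -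
        (Chebyshev.psi (x - H / 2) - (x - H / 2)) := by
      unfold DF
      rw [← SF_psi, ← SF_psi]
      have : (fun n => ArithmeticFunction.vonMangoldt n) = a0 := rfl
      rw [this]
      ring
    rw [e3]
    exact (abs_sub _ _).trans (add_le_add (hb _ (by linarith [hx.1]) (by linarith [hx.2]))
      (hb _ (by linarith [hx.1]) (by linarith [hx.2])))
  rw [intervalIntegral.integral_const, smul_eq_mul] at h1
  have e1 : K + K = (C * 2 ^ (1 / 2 + ε / 4) + C * 2 ^ (1 / 2 + ε / 4)) * X ^ (1 / 2 + ε / 4) := by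
    rw [hK, Real.mul_rpow (by norm_num) hX.le]
    ring
  have e2 : (X ^ (1 / 2 + ε / 4)) ^ 2 = X ^ (1 + ε / 2) := by
    rw [← Real.rpow_natCast, ← Real.rpow_mul hX.le]
    congr 1
    push_cast
    ring
  calc 1 / X * ∫ x in (X / 2)..X, |DF a0 H x - H| ^ 2 ≤ 1 / X * ((X - X / 2) * (K + K) ^ 2) :=
        mul_le_mul_of_nonneg_left h1 (by positivity)
    _ = (K + K) ^ 2 / 2 := by field_simp; ring
    _ ≤ (K + K) ^ 2 := by linarith [sq_nonneg (K + K)]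
    _ = (C * 2 ^ (1 / 2 + ε / 4) + C * 2 ^ (1 / 2 + ε / 4)) ^ 2 * X ^ (1 + ε / 2) := by
        rw [e1, mul_pow, e2]
    _ ≤ X ^ (ε / 2) * X ^ (1 + ε / 2) := by gcongr
    _ = H * X ^ (2 * ε) := by
        rw [hH, ← Real.rpow_add hX, ← Real.rpow_add hX]
        congr 1
        ring

theorem part3b (h : ∀ ε : ℝ, 0 < ε → ε < 1 →
      ∃ᶠ X : ℝ in atTop, ∃ H : ℝ, X ^ (1 - ε) ≤ H ∧ H ≤ X ^ (1 - ε / 2) ∧
        (1 / X) * ∫ x in (X / 2)..X, |psi x H - H| ^ 2 ≤ H * X ^ (2 * ε)) :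
    RiemannHypothesis := by
  rw [rh_free]
  intro s hs hz
  have hs1 : s.re < 1 := (Pool.Agent.W190.zero_FF hz).2
  set θ := (1 / 2 + s.re) / 2 with hθ
  have h1 : 1 / 2 < θ := by rw [hθ]; linarith
  have h2 : θ < s.re := by rw [hθ]; linarith
  set ε := (2 * θ - 1) / 4 with hε
  have hε0 : 0 < ε := by rw [hε]; linarith
  have hε1 : ε < 1 := by rw [hε]; linarith
  have h3 := part2 θ (ε / 2) h1.le (by linarith) (by linarith) ⟨s, hz, h2⟩
  obtain ⟨X, ⟨H, a1, a2, a3⟩, a4, a5⟩ := ((h ε hε0 hε1).and_eventually (h3.and (eventually_gt_atTop 1))).exists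
  have hX : 0 < X := by linarith
  have hH : 0 < H := lt_of_lt_of_le (by positivity) a1
  have a6 := a4 H hH a2
  have a7 : X ^ (1 - ε) * X ^ (2 * θ - 2) ≤ X ^ (2 * ε) := by
    have : H * (X ^ (1 - ε) * X ^ (2 * θ - 2)) ≤ H * X ^ (2 * ε) := by
      calc H * (X ^ (1 - ε) * X ^ (2 * θ - 2)) ≤ H * (H * X ^ (2 * θ - 2)) := by gcongr
        _ = H ^ 2 * X ^ (2 * θ - 2) := by ring
        _ ≤ _ := a6.trans a3
    exact le_of_mul_le_mul_left this hH
  rw [← Real.rpow_add hX] at a7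
  have a8 := (Real.rpow_le_rpow_left_iff a5).1 a7
  rw [hε] at a8
  linarith

/-- The variance of primes in short intervals on every window; the Riemann hypothesis from isolated
points. -/
theorem result :
    (∀ θ κ c ε : ℝ, 1 / 2 ≤ θ → 0 ≤ κ → 4 * θ * (1 - θ) * (κ + 1) ≤ 1 → 0 < c → 0 < ε → ε < 1 →
      (∃ s : ℂ, riemannZeta s = 0 ∧ θ < s.re) →
      ∀ᶠ X : ℝ in atTop, ∀ H : ℝ, 0 < H → H ≤ X ^ (1 - ε) →
        H * X ^ θ ≤ ∫ x in X..(X + c * X / Real.log X ^ κ), |psi x H - H|) ∧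
    (∀ θ ε : ℝ, 1 / 2 ≤ θ → 0 < ε → ε < 1 → (∃ s : ℂ, riemannZeta s = 0 ∧ θ < s.re) →
      ∀ᶠ X : ℝ in atTop, ∀ H : ℝ, 0 < H → H ≤ X ^ (1 - ε) →
        H ^ 2 * X ^ (2 * θ - 2) ≤ (1 / X) * ∫ x in (X / 2)..X, |psi x H - H| ^ 2) ∧
    (RiemannHypothesis ↔ ∀ ε : ℝ, 0 < ε → ε < 1 →
      ∃ᶠ X : ℝ in atTop, ∃ H : ℝ, X ^ (1 - ε) ≤ H ∧ H ≤ X ^ (1 - ε / 2) ∧
        (1 / X) * ∫ x in (X / 2)..X, |psi x H - H| ^ 2 ≤ H * X ^ (2 * ε)) :=
  ⟨part1, part2, part3a, part3b⟩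

end Pool.Agent.Results.MP_2a816b_nt.IsolatedPoints
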