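import Mathlib
import Pool.Agent.R528.RM.Var5

set_option autoImplicit false

/-!
# The variance in short intervals in random models of the primes, uniformly in the length

The question concerns the mean square over `x ≤ X` of the error in the prime number theorem for the
interval of length `H` at `x`.  We prove an asymptotic formula, uniform in `H`, in EVERY sequential
random model of the primes: the integers are decided one after the other, only integers coprime to a
fixed `Q` can be chosen, and the conditional probability of choosing `n + 1` (coprime to `Q`) given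
the past is asymptotic to `(Q / φ(Q)) / log n`; no independence is assumed (for `Q = 1` Cramér's
model and the Hawkins random sieve are examples).  Let `N(x; H)` be the number of members in
`(x, x + H]` and `C(x; H)` the sum of the conditional probabilities of the integers of this interval.
Almost surely

`(1 / X) ∑_{0 ≤ x < X} (N(x; H) - C(x; H))² ~ H / log X`  as `X → ∞`,

uniformly for all integers `H` with `1 ≤ H ≤ X / (log X)⁵`.
-/

open MeasureTheory Filter
open scoped Topology

namespace Pool.Agent.Results.MP_2a816b_nt.MeanSquareSievedModels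

/-- the number of elements of `S` in the interval `(x, x + H]` -/
noncomputable def number (S : Set ℕ) (x H : ℕ) : ℕ := Set.ncard {n : ℕ | n ∈ S ∧ x < n ∧ n ≤ x + H}

/-- the sum of the conditional probabilities, given the past, of the integers of `(x, x + H]` -/
noncomputable def expected {Ω : Type} [mΩ : MeasurableSpace Ω] (μ : Measure Ω)
    (ℱ : Filtration ℕ mΩ) (A : ℕ → Set Ω) (x H : ℕ) (ω : Ω) : ℝ :=
  ∑ n ∈ Finset.Ioc x (x + H), (μ[(A n).indicator (fun _ => (1 : ℝ)) | ℱ (n - 1)]) ω

open Pool.Agent.R528.RM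

lemma diff_eq {Ω : Type} {m0 : MeasurableSpace Ω} {μ : Measure Ω} {ℱ : Filtration ℕ m0} {A : ℕ → Set Ω} (x H : ℕ) (ω : Ω) :
    (number {k | ω ∈ A k} x H : ℝ) - expected μ ℱ A x H ω = Sn μ ℱ A (x + H) ω - Sn μ ℱ A x ω := by
  classical
  have h1 : (number {k | ω ∈ A k} x H : ℝ) = ∑ n ∈ Finset.Ioc x (x + H), In A n ω := by
    unfold number In
    have h2 : {n : ℕ | n ∈ {k | ω ∈ A k} ∧ x < n ∧ n ≤ x + H} = ((Finset.Ioc x (x + H)).filter (fun n => ω ∈ A n) : Finset ℕ) := by
      ext n
      simp only [Set.mem_ofPred_eq, Finset.coe_filter, Finset.mem_Ioc]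
      tauto
    rw [h2, Set.ncard_coe_finset, Finset.card_filter]
    push_cast
    refine Finset.sum_congr rfl fun n _ => ?_
    by_cases h : ω ∈ A n <;> simp [h]
  have h3 : expected μ ℱ A x H ω = ∑ n ∈ Finset.Ioc x (x + H), dens μ ℱ A (n - 1) ω := by
    unfold expected dens
    refine Finset.sum_congr rfl fun n hn => ?_
    have h4 := Finset.mem_Ioc.1 hn
    obtain ⟨m, rfl⟩ : ∃ m, n = m + 1 := ⟨n - 1, by omega⟩
    rw [Nat.add_sub_cancel]
  rw [h1, h3, ← Finset.sum_sub_distrib]
  unfold Sn
  rw [← Finset.sum_Ico_eq_sub _ (Nat.le_add_right x H)]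
  have h5 : Finset.Ioc x (x + H) = (Finset.Ico x (x + H)).image (fun k => k + 1) := by
    ext n
    simp only [Finset.mem_Ioc, Finset.mem_image, Finset.mem_Ico]
    constructor
    · rintro ⟨h6, h7⟩
      exact ⟨n - 1, by omega, by omega⟩
    · rintro ⟨k, ⟨h6, h7⟩, rfl⟩
      omega
  rw [h5, Finset.sum_image fun a _ b _ h => Nat.succ_injective h]
  refine Finset.sum_congr rfl fun k _ => ?_
  unfold xi
  rfl

end Pool.Agent.Results.MP_2a816b_nt.MeanSquareSievedModels

open Pool.Agent.Results.MP_2a816b_nt.MeanSquareSievedModels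

/-- Let `A n` be the event that `n` belongs to a random set adapted to a filtration `ℱ`, let
`Q ≥ 1`, let no integer which is not coprime to `Q` be chosen, and let the conditional probability of
`A (n + 1)` given `ℱ n`, times `log n`, tend to `Q / φ(Q)` along the `n` with `n + 1` coprime to `Q`,
almost surely.  Then almost surely the mean over `0 ≤ x < X` of the square of the difference between
the number of members of `(x, x + H]` and the sum of the conditional probabilities of its integers is
asymptotic to `H / log X` as `X → ∞`, uniformly for `1 ≤ H ≤ X / (log X)⁵`. -/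
theorem Pool.Agent.Results.MP_2a816b_nt.MeanSquareSievedModels.result
    {Ω : Type} [mΩ : MeasurableSpace Ω] (μ : Measure Ω) [IsProbabilityMeasure μ]
    (ℱ : Filtration ℕ mΩ) (A : ℕ → Set Ω) (hA : ∀ n, MeasurableSet[ℱ n] (A n))
    (Q : ℕ) (hQ : 0 < Q) (hcop : ∀ n, ¬ Nat.Coprime n Q → A n = ∅)
    (hd : ∀ᵐ ω ∂μ, Tendsto (fun n : ℕ =>
      (μ[(A (n + 1)).indicator (fun _ => (1 : ℝ)) | ℱ n]) ω * Real.log n)
      (atTop ⊓ 𝓟 {n : ℕ | Nat.Coprime (n + 1) Q}) (𝓝 ((Q : ℝ) / Nat.totient Q))) :
    ∀ᵐ ω ∂μ, ∀ ε : ℝ, 0 < ε → ∀ᶠ X : ℕ in atTop, ∀ H : ℕ, 1 ≤ H → (H : ℝ) ≤ X / Real.log X ^ 5 →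
      |(∑ x ∈ Finset.range X, ((number {k | ω ∈ A k} x H : ℝ) - expected μ ℱ A x H ω) ^ 2) / X -
        H / Real.log X| ≤ ε * (H / Real.log X) := by
  filter_upwards [Pool.Agent.R528.RM.short_law (μ := μ) (ℱ := ℱ) hA Q hQ hcop hd] with ω hω ε hε
  filter_upwards [hω ε hε, eventually_gt_atTop 0] with X hX hX0 H hH1 hH2
  have h1 := hX H hH1 hH2
  have hX' : (0 : ℝ) < X := by exact_mod_cast hX0
  simp_rw [diff_eq]
  unfold Pool.Agent.R528.RM.VH at h1
  set V := ∑ x ∈ Finset.range X, (Pool.Agent.R528.RM.Sn μ ℱ A (x + H) ω - Pool.Agent.R528.RM.Sn μ ℱ A x ω) ^ 2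
  have h2 : V / X - H / Real.log X = (V - (H : ℝ) * X / Real.log X) / X := by
    field_simp
  rw [h2, abs_div, abs_of_pos hX', div_le_iff₀ hX']
  refine h1.trans (le_of_eq ?_)
  ring
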